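import Pool.Agent.Lib.MP_b78339_an.NoUmd

set_option autoImplicit false

open Pool.Agent.Lib.MP_b78339_an

universe u

/-- Q1 in every complex Banach space: both extrapolation statements hold at the endpoint
`θ = min (p / r) (p' / r')`. -/
theorem Pool.Agent.Results.MP_b78339_an.AllBanach.result :
    ∀ (X : Type u) [NormedAddCommGroup X] [NormedSpace ℂ X] [CompleteSpace X],
      ∀ p q r : ℝ, 1 < p → 1 < q → 1 < r →
        ∀ θ : ℝ, θ = min (p / r) (p.conjExponent / r.conjExponent) →
          (UpperDec X q p → UpperDec X (q.conjExponent / θ).conjExponent r) ∧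
          (LowerDec X q p → LowerDec X (q / θ) r) := by
  intro X _ _ _ p q r hp hq hr θ hθ
  rw [hθ]
  exact T98.main_all hp hq hr
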